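import Pool.Agent.Lib.MP_12adaf_ntNS.C9
import Pool.Agent.Lib.MP_12adaf_ntE7.F7

/-!
# Grunwald's problem for embedding problems whose kernel has given nonabelian composition factors

Let `k` be a number field and `G` a finite group acting on a finite extension `M` of `k` with field
of invariants `k`; so `M` is a Galois extension of `k` whose group is the quotient of `G` by the
kernel `N` of the action.  Let all composition factors of `N` be alternating groups `Aₙ` with `n ≥ 5`,
`n ≠ 6`, or one of the simple groups `PSp₄(3)` and `Sp₆(2)`, the rotation groups of type `E₆` and `E₇`.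
For every family of Galois algebras over completions of `k` at finitely many places, with
group `G` and with an equivariant homomorphism from `M`, there is one over `k` which induces them.
For `M = k` (and `N = G`) this is Grunwald's problem for the group `G`.
-/

namespace Pool.Agent.Results.MP_12adaf_nt.GrunwaldEmbedding

open NumberField IsDedekindDomain Pool.Agent.Lib.MP_12adaf_nt.NS

universe u

theorem result {k M G : Type u} [Field k] [NumberField k] [Field M] [Algebra k M]
    -- the finite group `G` acts on `M` with field of invariants `k`
    [Group G] [Finite G] [MulSemiringAction G M] [SMulCommClass G k M]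
    [Algebra.IsInvariant k M G]
    -- the composition factors of the kernel of the action are `Aₙ`, `PSp₄(3)`, `Sp₆(2)`
    (hfac : HasFactors IsAltOrRot (MulSemiringAction.toRingAut G M).ker)
    -- solutions at finitely many infinite and finite places
    (S : Finset (InfinitePlace k)) (T : Finset (HeightOneSpectrum (𝓞 k)))
    (A : S → Type u) [∀ v, CommRing (A v)] [∀ v, Algebra v.1.Completion (A v)]
    [∀ v, MulSemiringAction G (A v)] (φ : ∀ v, M →+* A v)
    (hφ : ∀ v : S, IsSolution k v.1.Completion G (φ v))
    (B : T → Type u) [∀ w, CommRing (B w)] [∀ w, Algebra (w.1.adicCompletion k) (B w)]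
    [∀ w, MulSemiringAction G (B w)] (χ : ∀ w, M →+* B w)
    (hχ : ∀ w : T, IsSolution k (w.1.adicCompletion k) G (χ w)) :
    -- there is a solution over `k` which induces them
    ∃ (L : Type u) (_ : CommRing L) (_ : Algebra k L) (_ : MulSemiringAction G L) (ψ : M →+* L),
      IsSolution k k G ψ ∧ (∀ v : S, Induces k v.1.Completion G ψ (φ v)) ∧
      ∀ w : T, Induces k (w.1.adicCompletion k) G ψ (χ w) := by
  have : CharZero M := charZero_of_injective_algebraMap (algebraMap k M).injective
  exact exists_solution (goal_altOrRot hfac) S T A φ hφ B χ hχ

end Pool.Agent.Results.MP_12adaf_nt.GrunwaldEmbedding
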