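import Pool.Agent.Lib.MP_12adaf_ntE7.F7
import Pool.Agent.Lib.MP_12adaf_ntWA.A5

/-!
# Fields of invariants, nonabelian composition factors, and rational points

Let a finite group `G` act on a field `M` of characteristic zero, with field of invariants `K`, and
let all composition factors of the kernel of this action be alternating groups `Aₙ` with `n ≥ 5`,
`n ≠ 6`, or one of the simple groups `PSp₄(3)` and `Sp₆(2)` (the subgroups of the elements of
determinant 1 of the Weyl groups of type `E₆` and `E₇`).
Let `E` be the field of rational functions over `M` in variables `x i` with an action of
`G` which extends the action on `M`, is faithful and is semilinear in the variables.  Then the field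
of invariants `E ^ G` is stably rational over `K`; and if `K` is a number field and `X` is a smooth
integral scheme over `K` with function field stably isomorphic to `E ^ G`, then `X(K)` is dense in
the product of the `X(K_v)` over all places `v` of `K`.
-/

namespace Pool.Agent.Results.MP_12adaf_nt.NoetherStable

open AlgebraicGeometry CategoryTheory
open Pool.Agent.Lib.MP_12adaf_nt.NS Pool.Agent.Lib.MP_12adaf_nt.WA

universe u

theorem result {K M E G ι : Type u} [Field K] [Field M] [CharZero M] [Field E]
    [Algebra K M] [Algebra M E] [Algebra K E] [IsScalarTower K M E]
    -- the finite group `G` acts on `M` with field of invariants `K`, and faithfully on `E`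
    [Group G] [Finite G] [MulSemiringAction G M] [MulSemiringAction G E]
    [SMulCommClass G K M] [Algebra.IsInvariant K M G]
    (hact : ∀ (g : G) (m : M), g • algebraMap M E m = algebraMap M E (g • m))
    (hfaith : ∀ g : G, (∀ z : E, g • z = z) → g = 1)
    -- `E` is the field of rational functions over `M` in the variables `x i`
    [Finite ι] {x : ι → E} (hx : AlgebraicIndependent M x)
    (hgen : IntermediateField.adjoin M (Set.range x) = ⊤)
    -- the action is semilinear in the variables
    (hlin : ∀ (g : G) (i : ι), g • x i ∈ Submodule.span M (Set.range x))
    -- the composition factors of the kernel of the action on `M` are `Aₙ`, `PSp₄(3)`, `Sp₆(2)`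
    (hfac : HasFactors IsAltOrRot (MulSemiringAction.toRingAut G M).ker) :
    -- the field of invariants is stably rational
    ∃ F : IntermediateField K E, (∀ z : E, z ∈ F ↔ ∀ g : G, g • z = z) ∧
      IsStablyRational K F ∧
      -- for a number field `K`: the rational points of the smooth models are dense in the product
      -- of the sets of local points over all places
      ∀ [NumberField K] (X : Scheme.{u}) (π : X ⟶ Spec (.of K)) [IsIntegral X] [Smooth π],
        (letI := algebraFunctionField π; StablyIso K X.functionField F) →
          DenseRange (diag π) := by
  have H : SemExt K M G E ι x := ⟨inferInstance, hact, hx, hgen, hlin, hfaith⟩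
  let F : IntermediateField K E := fixF K G H.smul_K
  have hF : IsStablyRational K F := goal_altOrRot hfac E ι x H F fun z => mem_fixF
  exact ⟨F, fun z => mem_fixF, hF, fun X π _ _ h => denseRange_diag_of_stablyIso hF π h⟩

end Pool.Agent.Results.MP_12adaf_nt.NoetherStable
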