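import Mathlib
import Pool.Agent.Lib.MP_12adaf_nt.CM.Main
import Pool.Agent.Lib.MP_12adaf_nt.CM.Rational

/-!
# The varieties `d y ^ 2 = disc P` are rational and satisfy weak approximation

For a number field `k`, `d ∈ k` nonzero and `n ≥ 2`, let `U` be the smooth variety

  `d y ^ 2 = disc (X ^ n + a₁ X ^ (n - 1) + ... + aₙ)`, `y ≠ 0`

over `k` (the form of the quotient of affine space by the alternating group `Aₙ` given by `d`).

* The function field of `U` is purely transcendental over `k`.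
* The rational points of `U` are dense in the product of its points over any finite nonempty set
  of completions of `k`.
-/

namespace Pool.Agent.Results.MP_12adaf_nt.RationalAll

open Polynomial NumberField IsDedekindDomain

/-- The pair `(P, y)` is an `R`-point of the variety `d y ^ 2 = disc P`, `y ≠ 0`, where `P` runs
over the monic polynomials of degree `n`. -/
def IsPoint {R : Type*} [CommRing R] (n : ℕ) (d : R) (P : R[X]) (y : R) : Prop :=
  P.Monic ∧ P.natDegree = n ∧ P.discr = d * y ^ 2 ∧ y ≠ 0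

theorem result {k : Type*} [Field k] [NumberField k] {n : ℕ} (hn : 2 ≤ n) {d : k} (hd : d ≠ 0) :
    (∃ (P : (FractionRing (MvPolynomial (Fin n) k))[X])
        (y : FractionRing (MvPolynomial (Fin n) k)),
      IsPoint n (algebraMap k (FractionRing (MvPolynomial (Fin n) k)) d) P y ∧
      AlgebraicIndependent k (fun i : Fin n => P.coeff i) ∧
      IntermediateField.adjoin k (insert y (Set.range fun i : Fin n => P.coeff i)) = ⊤) ∧
    ∀ (S : Finset (InfinitePlace k)) (T : Finset (HeightOneSpectrum (𝓞 k))),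
      S.Nonempty ∨ T.Nonempty →
      ∀ (F : ∀ v : S, (v.1.Completion)[X]) (y : ∀ v : S, v.1.Completion)
        (G : ∀ w : T, (w.1.adicCompletion k)[X]) (z : ∀ w : T, w.1.adicCompletion k),
      (∀ v : S, IsPoint n (algebraMap k v.1.Completion d) (F v) (y v)) →
      (∀ w : T, IsPoint n (algebraMap k (w.1.adicCompletion k) d) (G w) (z w)) →
      ∀ {ε : ℝ}, 0 < ε →
      ∃ (P : k[X]) (x : k), IsPoint n d P x ∧
        (∀ v : S, (∀ m, ‖algebraMap k v.1.Completion (P.coeff m) - (F v).coeff m‖ < ε) ∧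
          ‖algebraMap k v.1.Completion x - y v‖ < ε) ∧
        ∀ w : T, (∀ m, ‖algebraMap k (w.1.adicCompletion k) (P.coeff m) - (G w).coeff m‖ < ε) ∧
          ‖algebraMap k (w.1.adicCompletion k) x - z w‖ < ε := by
  classical
  constructor
  · obtain ⟨P, y, h1, h2, h3, h4, h5, h6⟩ := Lib.MP_12adaf_nt.rational_CM_frac (K := k) hn hd
    exact ⟨P, y, ⟨h1, h2, h3, h4⟩, h5, h6⟩
  intro S T hST F y G z hF hG ε hε
  let f : S ⊕ T → Lib.MP_12adaf_nt.Pl k := Sum.map Subtype.val Subtype.val
  have hf : Function.Injective f := Sum.map_injective.2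
    ⟨Subtype.val_injective, Subtype.val_injective⟩
  have hne : Nonempty (S ⊕ T) := by
    rcases hST with ⟨v, hv⟩ | ⟨w, hw⟩
    · exact ⟨Sum.inl ⟨v, hv⟩⟩
    · exact ⟨Sum.inr ⟨w, hw⟩⟩
  let F' : ∀ i : S ⊕ T, (Lib.MP_12adaf_nt.PlC k (f i))[X] := fun i =>
    match i with
    | Sum.inl v => F v
    | Sum.inr w => G w
  let Y' : ∀ i : S ⊕ T, Lib.MP_12adaf_nt.PlC k (f i) := fun i =>
    match i with
    | Sum.inl v => y v
    | Sum.inr w => z w
  have hmon : ∀ i, (F' i).Monic := by
    rintro (v | w)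
    · exact (hF v).1
    · exact (hG w).1
  have hdeg : ∀ i, (F' i).natDegree = n := by
    rintro (v | w)
    · exact (hF v).2.1
    · exact (hG w).2.1
  obtain ⟨P, x, h1, h2, h3, h5, h6⟩ := Lib.MP_12adaf_nt.global_CM
    (fun i => Lib.MP_12adaf_nt.PlC k (f i)) (fun i => Lib.MP_12adaf_nt.plEmb k (f i))
    (Lib.MP_12adaf_nt.denseRange_places k f hf) hn hd F' Y' hmon hdeg
    (by
      rintro (v | w)
      · exact (hF v).2.2.1
      · exact (hG w).2.2.1)
    (by
      rintro (v | w)
      · exact (hF v).2.2.2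
      · exact (hG w).2.2.2)
    hε
  exact ⟨P, x, ⟨h1, h2, h3, h5⟩, fun v => h6 (Sum.inl v), fun w => h6 (Sum.inr w)⟩

end Pool.Agent.Results.MP_12adaf_nt.RationalAll
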