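import Mathlib
import Pool.Agent.Lib.MP_12adaf_nt.HM.V8
import Pool.Agent.Lib.MP_12adaf_nt.TF.NF

/-!
# Polynomials with a given trace form: Hasse principle and weak approximation

Let `Q` be a matrix of size `n ≥ 4` over a number field `k`. The points of the variety `U_Q` are the
pairs `(P, M)` of a monic separable polynomial `P` of degree `n` and an invertible matrix `M` with
`Mᵀ Q M = (Tr (x ^ (i + j)))`, i.e. an isometry from the trace form of `k[X] / (P)`, in the basis of
the powers of `X`, to the form given by `Q`. It is a smooth geometrically irreducible variety,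
birational to the product of an affine space and a homogeneous space of the spinor group of `Q`
with geometric stabilisers isomorphic to the double cover `2.A_n` of the alternating group. We prove
that `U_Q` satisfies the Hasse principle and weak approximation: if it has points everywhere locally
then its rational points are dense in the product of its local points over any finite set of places.
-/

namespace Pool.Agent.Results.MP_12adaf_nt.TraceFormPoints

open Polynomial NumberField IsDedekindDomain Matrix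

/-- The pair `(P, M)` is a `K`-point of the variety `U_Q`: `P` is monic and separable of degree
`n`, and the invertible matrix `M` is an isometry from the trace form of `K[X] / (P)`, in the basis
`1, x, ..., x ^ (n - 1)`, to the form with matrix `Q`. -/
def IsPoint {K : Type*} [Field K] (n : ℕ) (Q : Matrix (Fin n) (Fin n) K) (P : K[X])
    (M : Matrix (Fin n) (Fin n) K) : Prop :=
  P.Monic ∧ P.natDegree = n ∧ P.Separable ∧ M.det ≠ 0 ∧
    Mᵀ * Q * M = Algebra.traceMatrix K fun i : Fin n => AdjoinRoot.root P ^ (i : ℕ)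

lemma isPoint_iff {K : Type*} [Field K] {n : ℕ} {Q : Matrix (Fin n) (Fin n) K} {P : K[X]}
    {M : Matrix (Fin n) (Fin n) K} : IsPoint n Q P M ↔ Lib.MP_12adaf_nt.TF.TPt n Q P M := by
  constructor
  · rintro ⟨h1, h2, h3, h4, h5⟩
    exact ⟨h1, h2, h3, h4, by rw [h5, Lib.MP_12adaf_nt.TF.HH_eq_traceMatrix h1 h2]⟩
  · rintro ⟨h1, h2, h3, h4, h5⟩
    exact ⟨h1, h2, h3, h4, by rw [h5, Lib.MP_12adaf_nt.TF.HH_eq_traceMatrix h1 h2]⟩

theorem result {k : Type*} [Field k] [NumberField k] {n : ℕ} (hn : 4 ≤ n)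
    {Q : Matrix (Fin n) (Fin n) k}
    (hinf : ∀ v : InfinitePlace k, ∃ P M, IsPoint n (Q.map (algebraMap k v.Completion)) P M)
    (hfin : ∀ w : HeightOneSpectrum (𝓞 k), ∃ P M,
      IsPoint n (Q.map (algebraMap k (w.adicCompletion k))) P M)
    (S : Finset (InfinitePlace k)) (T : Finset (HeightOneSpectrum (𝓞 k)))
    (F : ∀ v : S, (v.1.Completion)[X]) (A : ∀ v : S, Matrix (Fin n) (Fin n) v.1.Completion)
    (G : ∀ w : T, (w.1.adicCompletion k)[X])
    (B : ∀ w : T, Matrix (Fin n) (Fin n) (w.1.adicCompletion k))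
    (hF : ∀ v : S, IsPoint n (Q.map (algebraMap k v.1.Completion)) (F v) (A v))
    (hG : ∀ w : T, IsPoint n (Q.map (algebraMap k (w.1.adicCompletion k))) (G w) (B w))
    {ε : ℝ} (hε : 0 < ε) :
    ∃ (P : k[X]) (M : Matrix (Fin n) (Fin n) k), IsPoint n Q P M ∧
      (∀ v : S, (∀ m, ‖algebraMap k v.1.Completion (P.coeff m) - (F v).coeff m‖ < ε) ∧
        ∀ a b, ‖algebraMap k v.1.Completion (M a b) - A v a b‖ < ε) ∧
      ∀ w : T, (∀ m, ‖algebraMap k (w.1.adicCompletion k) (P.coeff m) - (G w).coeff m‖ < ε) ∧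
        ∀ a b, ‖algebraMap k (w.1.adicCompletion k) (M a b) - B w a b‖ < ε := by
  classical
  let U : Finset (Lib.MP_12adaf_nt.Pl k) := S.disjSum T
  have hUl : ∀ v : InfinitePlace k, (Sum.inl v : Lib.MP_12adaf_nt.Pl k) ∈ U → v ∈ S := by
    intro v hv
    simpa [U] using hv
  have hUr : ∀ w : HeightOneSpectrum (𝓞 k), (Sum.inr w : Lib.MP_12adaf_nt.Pl k) ∈ U → w ∈ T := by
    intro w hw
    simpa [U] using hw
  let F' : ∀ i : U, (Lib.MP_12adaf_nt.PlC k i.1)[X] := fun i =>
    match i with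
    | ⟨Sum.inl v, h⟩ => F ⟨v, hUl v h⟩
    | ⟨Sum.inr w, h⟩ => G ⟨w, hUr w h⟩
  let M' : ∀ i : U, Matrix (Fin n) (Fin n) (Lib.MP_12adaf_nt.PlC k i.1) := fun i =>
    match i with
    | ⟨Sum.inl v, h⟩ => A ⟨v, hUl v h⟩
    | ⟨Sum.inr w, h⟩ => B ⟨w, hUr w h⟩
  have hloc : ∀ i : Lib.MP_12adaf_nt.Pl k, ∃ F M,
      Lib.MP_12adaf_nt.TF.TPt n (Q.map (Lib.MP_12adaf_nt.plEmb k i)) F M := by
    rintro (v | w)
    · obtain ⟨P, M, h⟩ := hinf v
      exact ⟨P, M, isPoint_iff.1 h⟩
    · obtain ⟨P, M, h⟩ := hfin w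
      exact ⟨P, M, isPoint_iff.1 h⟩
  obtain ⟨P, N, h1, h2⟩ := Lib.MP_12adaf_nt.HM.points_approx hn hloc U F' M'
    (by
      rintro ⟨v | w, h⟩
      · exact isPoint_iff.1 (hF ⟨v, hUl v h⟩)
      · exact isPoint_iff.1 (hG ⟨w, hUr w h⟩)) hε
  refine ⟨P, N, isPoint_iff.2 h1, fun v => ?_, fun w => ?_⟩
  · have hv : (Sum.inl v.1 : Lib.MP_12adaf_nt.Pl k) ∈ U := by simp [U]
    exact h2 ⟨Sum.inl v.1, hv⟩
  · have hw : (Sum.inr w.1 : Lib.MP_12adaf_nt.Pl k) ∈ U := by simp [U]
    exact h2 ⟨Sum.inr w.1, hw⟩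

end Pool.Agent.Results.MP_12adaf_nt.TraceFormPoints
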